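import Pool.Agent.H606.GU.Stm

/-! TASK L1 of project GU (helper606). -/

open MeasureTheory Filter Topology Finset
open Pool.Agent.H606.GU

namespace Pool.Agent.H376.GU.L1

theorem lowPart (hTC : S_TC) (hINT : S_INT) (C : Cfg) {a : ℝ} (ha : 0 < a) : Low C 1 a := by
  have hmm : mm 1 a = a := (hINT 1 a le_rfl ha).2.1
  intro ε hε
  have h1 : Tendsto (fun T => ((C.N T : ℝ) / C.R T) * a) atTop (𝓝 (1 * a)) := C.hN.mul_const a
  have h2 : ∀ T, Av (C.x T) (C.R T) (tile 1 a 0) = ((C.N T : ℝ) / C.R T) * a := by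
    intro T
    obtain ⟨e1, _, _, _, _, _, _, e8, _⟩ := hTC (C.N T) (C.x T) a ha
    have e : ∀ t, (cnt (C.x T) (tile 1 a 0) t : ℝ) = (tc (C.x T) a 0 t : ℝ) := by
      intro t
      rw [← e1 1 0 t, Nat.descFactorial_one]
    rw [Av]
    simp only [e]
    rw [e8 0]
    ring
  have h3 : mm 1 a - ε < 1 * a := by rw [hmm]; linarith
  filter_upwards [h1.eventually_const_lt h3] with T hT
  rw [h2]
  exact hT.le

theorem covPart (hTC : S_TC) (hINT : S_INT) (C : Cfg) {a : ℝ} (ha : 0 < a) : CovLow C 1 a := by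
  have hmm : mm 1 a = a := (hINT 1 a le_rfl ha).2.1
  intro η hη
  refine ⟨1, fun M hM => ?_⟩
  have hM' : (1 : ℝ) ≤ M := by exact_mod_cast hM
  have hMa : 0 < (M : ℝ) * a := by positivity
  have h1 : Tendsto (fun T => ((M : ℝ) * a) ^ 2 * (2 * ((C.N T : ℝ) / C.R T) - 1 -
      M * a * (C.R T)⁻¹)) atTop (𝓝 (((M : ℝ) * a) ^ 2 * (2 * 1 - 1 - M * a * 0))) :=
    (((C.hN.const_mul 2).sub_const 1).sub
      ((tendsto_inv_atTop_zero.comp C.hR).const_mul _)).const_mul _
  have h2 : (M : ℝ) ^ 2 * a * mm 1 a - η * M < ((M : ℝ) * a) ^ 2 * (2 * 1 - 1 - M * a * 0) := by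
    rw [hmm]
    have : 0 < η * M := by positivity
    nlinarith
  filter_upwards [h1.eventually_const_lt h2, C.hR.eventually_gt_atTop 0] with T hT hR
  refine hT.le.trans ?_
  obtain ⟨_, _, _, _, e5, e6, e7, e8, _⟩ := hTC (C.N T) (C.x T) a ha
  have hF : ∀ t, FF (C.x T) a 1 M t = NN (C.x T) a M t := by
    intro t
    simp only [FF, NN, Nat.descFactorial_one]
  simp only [hF]
  set I := Set.Icc (-((M : ℝ) * a)) (C.R T) with hI
  have hout : ∀ t, t ∉ I → NN (C.x T) a M t = 0 := by
    intro t ht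
    rw [NN]
    refine Finset.sum_eq_zero fun i hi => ?_
    rw [e6 M (C.R T) (C.hx T) i (Finset.mem_range.1 hi) t ht, Nat.cast_zero]
  have hmeas : Measurable fun t => NN (C.x T) a M t := by
    simp only [NN]
    exact Finset.measurable_sum _ fun i _ => e5 i
  have hnn : ∀ t, 0 ≤ NN (C.x T) a M t := fun t => Finset.sum_nonneg fun _ _ => Nat.cast_nonneg _
  have hle : ∀ t, NN (C.x T) a M t ≤ M * C.N T := by
    intro t
    rw [NN]
    have h := Finset.sum_le_card_nsmul (range M) (fun i => (tc (C.x T) a i t : ℝ)) (C.N T : ℝ)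
      (fun i _ => by exact_mod_cast e7 i t)
    rw [Finset.card_range, nsmul_eq_mul] at h
    exact h
  have hIfin : volume I < ⊤ := by
    rw [hI, Real.volume_Icc]
    exact ENNReal.ofReal_lt_top
  have hint1 : IntegrableOn (fun t => NN (C.x T) a M t) I :=
    Measure.integrableOn_of_bounded (M := (M : ℝ) * C.N T) hIfin.ne hmeas.aestronglyMeasurable
      (Eventually.of_forall fun t => by
        rw [Real.norm_of_nonneg (hnn t)]
        exact hle t)
  have hint2 : IntegrableOn (fun t => NN (C.x T) a M t * NN (C.x T) a M t) I :=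
    Measure.integrableOn_of_bounded (M := ((M : ℝ) * C.N T) * ((M : ℝ) * C.N T)) hIfin.ne
      (hmeas.mul hmeas).aestronglyMeasurable
      (Eventually.of_forall fun t => by
        rw [Real.norm_of_nonneg (mul_nonneg (hnn t) (hnn t))]
        exact mul_le_mul (hle t) (hle t) (hnn t) (by positivity))
  have hi1 : ∫ t in I, NN (C.x T) a M t = M * a * C.N T := by
    rw [setIntegral_eq_integral_of_forall_compl_eq_zero hout]
    simp only [NN]
    rw [integral_finsetSum]
    · simp only [e8, Finset.sum_const, Finset.card_range, nsmul_eq_mul]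
      ring
    · intro i hi
      have h1 : IntegrableOn (fun t => (tc (C.x T) a i t : ℝ)) I :=
        Measure.integrableOn_of_bounded (M := (C.N T : ℝ)) hIfin.ne (e5 i).aestronglyMeasurable
          (Eventually.of_forall fun t => by
            rw [Real.norm_of_nonneg (Nat.cast_nonneg _)]
            exact_mod_cast e7 i t)
      refine (integrableOn_iff_integrable_of_support_subset ?_).1 h1
      intro t ht
      by_contra h2
      refine ht ?_
      change (tc (C.x T) a i t : ℝ) = 0
      rw [e6 M (C.R T) (C.hx T) i (Finset.mem_range.1 hi) t h2, Nat.cast_zero]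
  have hi2 : ∫ t : ℝ, NN (C.x T) a M t * NN (C.x T) a M t =
      ∫ t in I, NN (C.x T) a M t * NN (C.x T) a M t := by
    rw [setIntegral_eq_integral_of_forall_compl_eq_zero]
    intro t ht
    rw [hout t ht, mul_zero]
  have hvol : ∫ _ in I, ((M : ℝ) * a) ^ 2 = ((M : ℝ) * a) ^ 2 * (C.R T + M * a) := by
    rw [setIntegral_const, smul_eq_mul, Measure.real, hI, Real.volume_Icc,
      ENNReal.toReal_ofReal (by linarith)]
    ring
  have hlow : ∫ t in I, (2 * (M * a) * NN (C.x T) a M t - ((M : ℝ) * a) ^ 2) ≤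
      ∫ t in I, NN (C.x T) a M t * NN (C.x T) a M t := by
    refine setIntegral_mono ((hint1.const_mul _).sub ?_) hint2 fun t => ?_
    · exact integrableOn_const hIfin.ne
    · change 2 * (M * a) * NN (C.x T) a M t - ((M : ℝ) * a) ^ 2 ≤ _
      nlinarith [sq_nonneg (NN (C.x T) a M t - M * a)]
  rw [integral_sub (hint1.const_mul _) (integrableOn_const hIfin.ne), hvol,
    integral_const_mul, hi1] at hlow
  rw [hi2, le_div_iff₀ hR]
  refine le_trans (le_of_eq ?_) hlow
  field_simp
  ring

theorem t_L1 (hAV : S_AV) (hTC : S_TC) (hINT : S_INT) : S_L1 :=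
  fun C _ ha => ⟨lowPart hTC hINT C ha, covPart hTC hINT C ha⟩

end Pool.Agent.H376.GU.L1
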