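import Pool.Agent.H606.GU.Stm

/-! TASK UPC of project GU (helper606). -/

open MeasureTheory Filter Topology Finset
open Pool.Agent.H606.GU

namespace Pool.Agent.H376.GU.UPC

theorem t_UPC (hAV : S_AV) : S_UPC := by
  intro C α _ _ _ c _ hUp A hA hAb hfr ε hε
  have h1 := hUp (closure A) hAb.isCompact_closure ε hε
  have h2 : ∫ y in closure A, rho y = ∫ y in A, rho y :=
    setIntegral_congr_set (closure_ae_eq_of_null_frontier hfr)
  filter_upwards [h1, C.hR.eventually_gt_atTop 0] with T hT hR
  rw [h2] at hT
  exact ((hAV α (C.N T) (C.x T) (C.R T) hR).2.2.2.1 A (closure A) hA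
    isClosed_closure.measurableSet hAb.closure subset_closure).trans hT

end Pool.Agent.H376.GU.UPC
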